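import Pool.Graph.R_seed8.Helper475.OCJ2

set_option autoImplicit false

namespace Pool.Agent.KS6_48.OpenImg

open Pool.Agent.Helper475.OC Pool.Agent.Helper475.OC.M2
open Set Topology

/-- If a compact metric space has real valued maps with small fibres whose image is the unit
interval, every circle valued map lifts to the real line. -/
theorem lifts_of_arc {X : Type} [MetricSpace X] [CompactSpace X] (χ : X → T) (hχ : Continuous χ)
    (h : ∀ ε : ℝ, 0 < ε → ∃ p : X → ℝ, Continuous p ∧ range p = Icc 0 1 ∧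
      ∀ x x', p x = p x' → dist x x' < ε) : Lifts χ := by
  classical
  set e : ℝ := 1 / 4 with he
  have he0 : 0 < e := by norm_num
  obtain ⟨ρ, hρ, hρχ⟩ := Metric.uniformContinuous_iff.1
    (CompactSpace.uniformContinuous_of_continuous hχ) (e / 4) (by positivity)
  obtain ⟨p, hp, hran, hfib⟩ := h ρ hρ
  obtain ⟨a, ha0, ha⟩ := IsCompact.exists_forall_le'
    (s := {z : X × X | ρ ≤ dist z.1 z.2}) (f := fun z : X × X => |p z.1 - p z.2|)
    (isClosed_le continuous_const (continuous_fst.dist continuous_snd)).isCompact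
    (((hp.comp continuous_fst).sub (hp.comp continuous_snd)).abs.continuousOn) (a := 0)
    (by
      rintro ⟨x, x'⟩ hx
      rw [abs_pos]
      intro h
      have h1 := hfib x x' (sub_eq_zero.1 h)
      have h2 : ρ ≤ dist x x' := hx
      linarith)
  have hmod : ∀ x x' : X, |p x - p x'| < a → ‖χ x - χ x'‖ < e / 4 := by
    intro x x' h
    have h1 : dist x x' < ρ := by
      by_contra hcon
      rw [not_lt] at hcon
      have := ha (x, x') hcon
      linarith
    have h2 := hρχ h1
    rwa [dist_eq_norm] at h2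
  obtain ⟨n, hn⟩ := exists_nat_one_div_lt ha0
  set N : ℕ := n + 1 with hN
  have hN0 : (0 : ℝ) < N := by rw [hN]; positivity
  have hN1 : (1 : ℝ) / N < a := by rw [hN]; push_cast; exact hn
  have hx : ∀ k : ℕ, ∃ x : X, k ≤ N → p x = (k : ℝ) / N := by
    intro k
    by_cases hk : k ≤ N
    · have : (k : ℝ) / N ∈ range p := by
        rw [hran]
        refine ⟨by positivity, ?_⟩
        rw [div_le_one hN0]
        exact_mod_cast hk
      obtain ⟨x, hx⟩ := this
      exact ⟨x, fun _ => hx⟩
    · have : (0 : ℝ) ∈ range p := by rw [hran]; exact ⟨le_rfl, zero_le_one⟩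
      obtain ⟨x, -⟩ := this
      exact ⟨x, fun h => absurd h hk⟩
  choose x hpx using hx
  have hstep : ∀ k, k < N → ‖χ (x (k + 1)) - χ (x k)‖ < e / 4 := by
    intro k hk
    apply hmod
    rw [hpx _ hk, hpx _ hk.le]
    have h1 : (((k + 1 : ℕ) : ℝ) / N - (k : ℝ) / N) = 1 / N := by
      push_cast
      field_simp
      ring
    rw [h1, abs_of_pos (by positivity)]
    exact hN1
  choose sr hsr1 hsr2 using rep_small
  let δ : ℕ → ℝ := fun k => sr (χ (x (k + 1)) - χ (x k))
  have hδ1 : ∀ k, ((δ k : ℝ) : T) = χ (x (k + 1)) - χ (x k) := fun k => hsr1 _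
  have hδ2 : ∀ k, k < N → |δ k| < e / 4 := fun k hk => by
    show |sr _| < _
    rw [hsr2]
    exact hstep k hk
  set c0 : ℝ := sr (χ (x 0)) with hc0
  have hck : ∀ k : ℕ, ((c0 + ∑ j ∈ Finset.range k, δ j : ℝ) : T) = χ (x k) := by
    intro k
    induction k with
    | zero => simp [hc0, hsr1]
    | succ k ih =>
      rw [Finset.sum_range_succ, ← add_assoc, AddCircle.coe_add, ih, hδ1]
      abel
  set Ef : ℝ → ℝ := fun s => c0 + ∑ j ∈ Finset.range N, δ j * clp (N * s - j) with hEf
  have hEc : Continuous Ef := by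
    rw [hEf]
    refine continuous_const.add (continuous_finsetSum _ (fun j _ => ?_))
    exact continuous_const.mul (clp_cont.comp (by fun_prop))
  have hEk : ∀ (s : ℝ) (k : ℕ), k < N → (k : ℝ) ≤ N * s → N * s ≤ k + 1 →
      Ef s = c0 + ∑ j ∈ Finset.range k, δ j + δ k * (N * s - k) := by
    intro s k hk h0 h1
    show c0 + ∑ j ∈ Finset.range N, δ j * clp (N * s - j) = _
    rw [interp δ N k hk _ h0 h1, add_assoc]
  set D : X → T := fun y => χ y - ((Ef (p y) : ℝ) : T) with hD
  have hcoe : Continuous (fun r : ℝ => ((r : ℝ) : T)) := AddCircle.continuous_mk' 1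
  have hDc : Continuous D := hχ.sub (hcoe.comp (hEc.comp hp))
  have hDn : ∀ y, ‖D y‖ < e := by
    intro y
    have hpy : p y ∈ Icc (0 : ℝ) 1 := by rw [← hran]; exact mem_range_self y
    obtain ⟨hs0, hs1⟩ := hpy
    have hNs : 0 ≤ N * p y := by positivity
    -- index of the subinterval
    obtain ⟨k, hkN, hk0, hk1⟩ : ∃ k : ℕ, k < N ∧ (k : ℝ) ≤ N * p y ∧ N * p y ≤ k + 1 := by
      rcases lt_or_eq_of_le hs1 with h1 | h1
      · refine ⟨⌊N * p y⌋₊, ?_, Nat.floor_le hNs, (Nat.lt_floor_add_one _).le⟩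
        have h2 : (⌊N * p y⌋₊ : ℝ) ≤ N * p y := Nat.floor_le hNs
        have : (⌊N * p y⌋₊ : ℝ) < N := by nlinarith
        exact_mod_cast this
      · refine ⟨n, by omega, ?_, ?_⟩
        · rw [h1, hN]; push_cast; linarith
        · rw [h1, hN]; push_cast; linarith
    have h1 : ‖χ y - χ (x k)‖ ≤ e / 4 + e / 4 := by
      -- use the two neighbours
      have hmid : |p y - p (x k)| ≤ 1 / N := by
        rw [hpx k hkN.le]
        have h2 : p y - (k : ℝ) / N = (N * p y - k) / N := by field_simp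
        rw [h2, abs_of_nonneg (div_nonneg (by linarith) hN0.le)]
        gcongr
        linarith
      have := hmod y (x k) (hmid.trans_lt hN1)
      linarith
    have h2 : ‖χ (x k) - ((Ef (p y) : ℝ) : T)‖ ≤ e / 4 := by
      rw [← hck k, hEk (p y) k hkN hk0 hk1, ← AddCircle.coe_sub]
      refine (norm_coe_le' _).trans ?_
      have h3 : c0 + ∑ j ∈ Finset.range k, δ j
          - (c0 + ∑ j ∈ Finset.range k, δ j + δ k * (N * p y - k))
          = -(δ k * (N * p y - k)) := by ring
      rw [h3, abs_neg, abs_mul, abs_of_nonneg (by linarith : 0 ≤ N * p y - k)]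
      have h4 := hδ2 k hkN
      have h5 := abs_nonneg (δ k)
      nlinarith
    calc ‖D y‖ = ‖(χ y - χ (x k)) + (χ (x k) - ((Ef (p y) : ℝ) : T))‖ := by
          congr 1
          show χ y - ((Ef (p y) : ℝ) : T) = _
          abel
      _ ≤ ‖χ y - χ (x k)‖ + ‖χ (x k) - ((Ef (p y) : ℝ) : T)‖ := norm_add_le _ _
      _ < e := lt_of_le_of_lt (add_le_add h1 h2) (by linarith)
  have hr : ∀ y, |sr (D y)| < 1 / 4 := fun y => by rw [hsr2]; exact hDn y
  have hrd : ∀ y y', |sr (D y) - sr (D y')| = ‖D y - D y'‖ := by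
    intro y y'
    have h1 : |sr (D y) - sr (D y')| ≤ 1 / 2 := by
      have := abs_sub (sr (D y)) (sr (D y'))
      linarith [hr y, hr y']
    rw [← norm_coe_small h1, AddCircle.coe_sub, hsr1, hsr1]
  have hrc : Continuous (fun y => sr (D y)) := by
    rw [continuous_iff_continuousAt]
    intro y
    have h1 : ContinuousAt D y := hDc.continuousAt
    rw [ContinuousAt, tendsto_iff_dist_tendsto_zero] at h1 ⊢
    refine h1.congr (fun y' => ?_)
    rw [Real.dist_eq, hrd, dist_eq_norm]
  refine ⟨fun y => Ef (p y) + sr (D y), (hEc.comp hp).add hrc, ?_⟩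
  intro y
  rw [AddCircle.coe_add, hsr1]
  show χ y = (((Ef (p y) : ℝ) : T) + (χ y - ((Ef (p y) : ℝ) : T)))
  abel

/-- normalisation of a real valued map with small fibres on a continuum -/
theorem normalise {Y : Type} [MetricSpace Y] [CompactSpace Y] [ConnectedSpace Y] [Nontrivial Y]
    (h : ∀ ε : ℝ, 0 < ε → ∃ ψ : Y → ℝ, Continuous ψ ∧ ∀ y y', ψ y = ψ y' → dist y y' < ε)
    (ε : ℝ) (hε : 0 < ε) : ∃ f : Y → unitInterval, Continuous f ∧ Function.Surjective f ∧
        ∀ t : unitInterval, Metric.diam (f ⁻¹' {t}) < ε := by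
  obtain ⟨a, b, hab⟩ := exists_pair_ne Y
  have hdab : 0 < dist a b := dist_pos.2 hab
  obtain ⟨δ, hδ, hδε, hδab⟩ : ∃ δ : ℝ, 0 < δ ∧ δ < ε ∧ δ < dist a b := by
    refine ⟨min ε (dist a b) / 2, by positivity, ?_, ?_⟩
    · have h1 : min ε (dist a b) ≤ ε := min_le_left _ _
      linarith [lt_min hε hdab]
    · have h1 : min ε (dist a b) ≤ dist a b := min_le_right _ _
      linarith [lt_min hε hdab]
  obtain ⟨g, hgc, hg⟩ := h δ hδ
  obtain ⟨y0, _, hy0⟩ := isCompact_univ.exists_isMinOn (univ_nonempty (α := Y)) hgc.continuousOn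
  obtain ⟨y1, _, hy1⟩ := isCompact_univ.exists_isMaxOn (univ_nonempty (α := Y)) hgc.continuousOn
  have hmin : ∀ y, g y0 ≤ g y := fun y => hy0 (mem_univ y)
  have hmax : ∀ y, g y ≤ g y1 := fun y => hy1 (mem_univ y)
  have hlt : g y0 < g y1 := by
    by_contra hle
    have h1 : g a = g b := by
      have := hmin a
      have := hmin b
      have := hmax a
      have := hmax b
      linarith
    have := hg a b h1
    linarith
  have hpos : 0 < g y1 - g y0 := by linarith
  refine ⟨fun y => ⟨(g y - g y0) / (g y1 - g y0), ?_, ?_⟩, ?_, ?_, ?_⟩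
  · exact div_nonneg (by linarith [hmin y]) hpos.le
  · rw [div_le_one hpos]
    linarith [hmax y]
  · exact Continuous.subtype_mk ((hgc.sub continuous_const).div_const _) _
  · rintro ⟨t, ht0', ht1'⟩
    have hmem : g y0 + t * (g y1 - g y0) ∈ Icc (g y0) (g y1) := by
      constructor
      · have := mul_nonneg ht0' hpos.le
        linarith
      · have := mul_le_mul_of_nonneg_right ht1' hpos.le
        linarith
    obtain ⟨y, hy⟩ := intermediate_value_univ y0 y1 hgc hmem
    refine ⟨y, Subtype.ext ?_⟩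
    show (g y - g y0) / (g y1 - g y0) = t
    rw [hy, add_sub_cancel_left, mul_div_cancel_right₀ _ hpos.ne']
  · intro t
    refine lt_of_le_of_lt (Metric.diam_le_of_forall_dist_le hδ.le ?_) hδε
    intro y hy y' hy'
    have e1 : (⟨(g y - g y0) / (g y1 - g y0), _⟩ : unitInterval) = t := hy
    have e2 : (⟨(g y' - g y0) / (g y1 - g y0), _⟩ : unitInterval) = t := hy'
    have e3 := congrArg Subtype.val (e1.trans e2.symm)
    have e4 : (g y - g y0) / (g y1 - g y0) = (g y' - g y0) / (g y1 - g y0) := e3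
    rw [div_left_inj' hpos.ne'] at e4
    exact (hg y y' (by linarith)).le

end Pool.Agent.KS6_48.OpenImg
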